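import Pool.Agent.Helper55.RT.Spec6
import Pool.Agent.Helper55.RT.MT1
import Pool.Agent.Helper23.Thin.TNS

/-!
# A class which is fixed over `κ(t)` gives a representation with a finite image in `H¹(F, V)`
-/

set_option autoImplicit false
set_option linter.all false

open Polynomial IsDedekindDomain
open scoped Classical

namespace Pool.Agent.Helper13.Thin.ORB

open Pool.Agent.TH115.GD Pool.Agent.Helper55.RT
open Pool.Agent.Helper55.RG hiding em_inj VanishL VanishExt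
open Pool.Agent.Helper55.RL

section act

variable {p : ℕ} [Fact p.Prime] {k k' K F : Type} [Field k] [CharZero k] [Field k']
  [Algebra k k'] [Field K] [Algebra k[X] K] [Field F] [Algebra k'[X] F] [IsFractionRing k'[X] F]
  [Algebra K F]

/-- `τ⁻¹ σ τ` -/
noncomputable def cjf (hT : IsTower k k' K F) (τ : Sep F ≃ₐ[K] Sep F) (σ : Sep F ≃ₐ[F] Sep F) :
    Sep F ≃ₐ[F] Sep F := (conj_ex hT τ σ).choose

theorem cjf_spec (hT : IsTower k k' K F) (τ : Sep F ≃ₐ[K] Sep F) (σ : Sep F ≃ₐ[F] Sep F)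
    (z : Sep F) : τ (cjf hT τ σ z) = σ (τ z) := (conj_ex hT τ σ).choose_spec z

theorem cjf_eq (hT : IsTower k k' K F) (τ : Sep F ≃ₐ[K] Sep F) {σ σ' : Sep F ≃ₐ[F] Sep F}
    (h : ∀ x, τ (σ' x) = σ (τ x)) : cjf hT τ σ = σ' := by
  ext z
  apply τ.injective
  rw [cjf_spec, h]

theorem cjf_mul (hT : IsTower k k' K F) (τ : Sep F ≃ₐ[K] Sep F) (σ₁ σ₂ : Sep F ≃ₐ[F] Sep F) :
    cjf hT τ (σ₁ * σ₂) = cjf hT τ σ₁ * cjf hT τ σ₂ := by
  apply cjf_eq
  intro x
  rw [AlgEquiv.mul_apply, cjf_spec, cjf_spec, AlgEquiv.mul_apply]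

/-- the same as a homomorphism -/
noncomputable def cj (hT : IsTower k k' K F) (τ : Sep F ≃ₐ[K] Sep F) :
    (Sep F ≃ₐ[F] Sep F) →* (Sep F ≃ₐ[F] Sep F) := MonoidHom.mk' (cjf hT τ) (cjf_mul hT τ)

theorem cj_spec (hT : IsTower k k' K F) (τ : Sep F ≃ₐ[K] Sep F) (σ : Sep F ≃ₐ[F] Sep F)
    (z : Sep F) : τ (cj hT τ σ z) = σ (τ z) := cjf_spec hT τ σ z

theorem cj_eq (hT : IsTower k k' K F) (τ : Sep F ≃ₐ[K] Sep F) {σ σ' : Sep F ≃ₐ[F] Sep F}
    (h : ∀ x, τ (σ' x) = σ (τ x)) : cj hT τ σ = σ' := cjf_eq hT τ h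

theorem cj_one (hT : IsTower k k' K F) (σ : Sep F ≃ₐ[F] Sep F) : cj hT 1 σ = σ :=
  cj_eq hT 1 fun x => rfl

theorem cj_comp (hT : IsTower k k' K F) (τ₁ τ₂ : Sep F ≃ₐ[K] Sep F) (σ : Sep F ≃ₐ[F] Sep F) :
    cj hT (τ₁ * τ₂) σ = cj hT τ₂ (cj hT τ₁ σ) := by
  apply cj_eq
  intro x
  rw [AlgEquiv.mul_apply, AlgEquiv.mul_apply, cj_spec, cj_spec]

theorem cj_cont (hT : IsTower k k' K F) (τ : Sep F ≃ₐ[K] Sep F) : Continuous (cj hT τ) := by
  apply continuous_of_continuousAt_one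
  rw [ContinuousAt, map_one]
  intro A hA
  rw [krullTopology_mem_nhds_one_iff] at hA
  obtain ⟨E, hE, hEA⟩ := hA
  rw [Filter.mem_map, krullTopology_mem_nhds_one_iff]
  obtain ⟨S, hS⟩ := IntermediateField.essFiniteType_iff.1
    (inferInstance : Algebra.EssFiniteType F E)
  haveI : Finite ((fun c => τ c) '' (S : Set (Sep F))) := (S.finite_toSet.image _).to_subtype
  refine ⟨IntermediateField.adjoin F ((fun c => τ c) '' (S : Set (Sep F))),
    IntermediateField.finiteDimensional_adjoin fun x _ =>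
      Algebra.IsIntegral.isIntegral (R := F) x, ?_⟩
  intro σ hσ
  apply hEA
  rw [SetLike.mem_coe, IntermediateField.mem_fixingSubgroup_iff] at hσ ⊢
  intro x hx
  rw [← hS] at hx
  induction hx using IntermediateField.adjoin_induction with
  | mem x hx =>
    apply τ.injective
    rw [cj_spec]
    exact hσ _ (IntermediateField.subset_adjoin _ _ ⟨x, hx, rfl⟩)
  | algebraMap x => exact AlgEquiv.commutes _ _
  | add x y _ _ hx hy => rw [map_add, hx, hy]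
  | inv x _ hx => rw [map_inv₀, hx]
  | mul x y _ _ hx hy => rw [map_mul, hx, hy]

theorem comm_cj (hT : IsTower k k' K F) (τ : Sep F ≃ₐ[K] Sep F) (σ : Sep F ≃ₐ[F] Sep F) :
    τ * (cj hT τ σ).restrictScalars K = σ.restrictScalars K * τ := by
  ext z
  exact cj_spec hT τ σ z

variable {d : ℕ} (ρ : (Sep F ≃ₐ[K] Sep F) →* GL (Fin d) ℤ_[p])

/-- the action of `τ` on all functions -/
noncomputable def actA (hT : IsTower k k' K F) (τ : Sep F ≃ₐ[K] Sep F) :
    ((Sep F ≃ₐ[F] Sep F) → Fin d → ℚ_[p]) →ₗ[ℚ_[p]] ((Sep F ≃ₐ[F] Sep F) → Fin d → ℚ_[p]) where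
  toFun c := fun σ => actQ ρ τ (c (cj hT τ σ))
  map_add' c c' := by
    funext σ
    rw [Pi.add_apply, Pi.add_apply, actQ_add']
  map_smul' u c := by
    funext σ
    rw [Pi.smul_apply, actQ_smul', RingHom.id_apply, Pi.smul_apply]

theorem actA_apply (hT : IsTower k k' K F) (τ : Sep F ≃ₐ[K] Sep F)
    (c : (Sep F ≃ₐ[F] Sep F) → Fin d → ℚ_[p]) (σ : Sep F ≃ₐ[F] Sep F) :
    actA ρ hT τ c σ = actQ ρ τ (c (cj hT τ σ)) := rfl

theorem actA_one (hT : IsTower k k' K F) (c : (Sep F ≃ₐ[F] Sep F) → Fin d → ℚ_[p]) :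
    actA ρ hT 1 c = c := by
  funext σ
  rw [actA_apply, actQ_one', cj_one]

theorem actA_mul (hT : IsTower k k' K F) (τ₁ τ₂ : Sep F ≃ₐ[K] Sep F)
    (c : (Sep F ≃ₐ[F] Sep F) → Fin d → ℚ_[p]) :
    actA ρ hT (τ₁ * τ₂) c = actA ρ hT τ₁ (actA ρ hT τ₂ c) := by
  funext σ
  rw [actA_apply, actA_apply, actA_apply, actQ_mul', cj_comp]

/-- the coboundaries -/
noncomputable def Z0 : Submodule ℚ_[p] ((Sep F ≃ₐ[F] Sep F) → Fin d → ℚ_[p]) where
  carrier := {c | IsCob ρ c}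
  zero_mem' := ⟨0, fun σ => by
    unfold actQ
    simp⟩
  add_mem' := by
    rintro c c' ⟨a, ha⟩ ⟨b, hb⟩
    refine ⟨a + b, fun σ => ?_⟩
    rw [Pi.add_apply, ha, hb, actQ_add']
    abel
  smul_mem' := by
    rintro u c ⟨a, ha⟩
    refine ⟨u • a, fun σ => ?_⟩
    rw [Pi.smul_apply, ha, actQ_smul', smul_sub]

theorem actA_Z0 (hT : IsTower k k' K F) (τ : Sep F ≃ₐ[K] Sep F)
    {c : (Sep F ≃ₐ[F] Sep F) → Fin d → ℚ_[p]} (hc : c ∈ Z0 ρ) : actA ρ hT τ c ∈ Z0 ρ := by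
  obtain ⟨y, hy⟩ := hc
  refine ⟨actQ ρ τ y, fun σ => ?_⟩
  rw [actA_apply, hy, actQ_sub', ← actQ_mul', comm_cj, actQ_mul']

/-- the continuous cocycles which are locally trivial -/
noncomputable def Zc (q D : k[X]) (c₀ : (Sep F ≃ₐ[F] Sep F) → Fin d → ℚ_[p])
    (h₀ : LocTrivial k' q D ρ c₀) :
    Submodule ℚ_[p] ((Sep F ≃ₐ[F] Sep F) → Fin d → ℚ_[p]) where
  carrier := {c | Continuous c ∧
    (∀ σ τ, c (σ * τ) = c σ + actQ ρ (σ.restrictScalars K) (c τ)) ∧ LocTrivial k' q D ρ c}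
  zero_mem' := by
    have h1 : ∀ v : HeightOneSpectrum k'[X], LocCobAt k' ρ c₀ v → LocCobAt k' ρ
        (0 : (Sep F ≃ₐ[F] Sep F) → Fin d → ℚ_[p]) v := by
      rintro v ⟨ι, -, -⟩
      refine ⟨ι, 0, fun σ _ => ?_⟩
      unfold actQ
      simp
    refine ⟨continuous_const, fun σ τ => ?_, fun v hv => h1 v (h₀.1 v hv),
      fun θ hθ => h1 _ (h₀.2 θ hθ)⟩
    unfold actQ
    simp
  add_mem' := by
    rintro c c' ⟨h1, h2, h3⟩ ⟨h4, h5, h6⟩
    have h7 : ∀ v : HeightOneSpectrum k'[X], LocCobAt k' ρ c v → LocCobAt k' ρ c' v →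
        LocCobAt k' ρ (c + c') v := by
      rintro v ⟨ι, y, hy⟩ h8
      obtain ⟨y', hy'⟩ := Pool.Agent.Helper23.Thin.cob_any h5 h8 ι
      refine ⟨ι, y + y', fun σ hσ => ?_⟩
      rw [Pi.add_apply, hy σ hσ, hy' σ hσ, actQ_add']
      abel
    refine ⟨h1.add h4, fun σ τ => ?_, fun v hv => h7 v (h3.1 v hv) (h6.1 v hv),
      fun θ hθ => h7 _ (h3.2 θ hθ) (h6.2 θ hθ)⟩
    rw [Pi.add_apply, Pi.add_apply, Pi.add_apply, h2, h5, actQ_add']
    abel
  smul_mem' := by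
    rintro u c ⟨h1, h2, h3⟩
    have h7 : ∀ v : HeightOneSpectrum k'[X], LocCobAt k' ρ c v → LocCobAt k' ρ (u • c) v := by
      rintro v ⟨ι, y, hy⟩
      refine ⟨ι, u • y, fun σ hσ => ?_⟩
      rw [Pi.smul_apply, hy σ hσ, actQ_smul', smul_sub]
    refine ⟨h1.const_smul u, fun σ τ => ?_, fun v hv => h7 v (h3.1 v hv),
      fun θ hθ => h7 _ (h3.2 θ hθ)⟩
    rw [Pi.smul_apply, Pi.smul_apply, Pi.smul_apply, h2, actQ_smul', smul_add]

theorem actQ_cont (τ : Sep F ≃ₐ[K] Sep F) : Continuous (fun y : Fin d → ℚ_[p] => actQ ρ τ y) := by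
  unfold actQ
  exact Continuous.matrix_mulVec continuous_const continuous_id

theorem actA_Zc (hTRL : Q_TRL) (hT : IsTower k k' K F) (q D : k[X])
    (c₀ : (Sep F ≃ₐ[F] Sep F) → Fin d → ℚ_[p]) (h₀ : LocTrivial k' q D ρ c₀)
    (τ : Sep F ≃ₐ[K] Sep F) {c : (Sep F ≃ₐ[F] Sep F) → Fin d → ℚ_[p]}
    (hc : c ∈ Zc ρ q D c₀ h₀) : actA ρ hT τ c ∈ Zc ρ q D c₀ h₀ := by
  obtain ⟨h1, h2, h3⟩ := hc
  refine ⟨?_, fun σ σ₁ => ?_, ?_⟩
  · exact (actQ_cont ρ τ).comp (h1.comp (cj_cont hT τ))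
  · rw [actA_apply, actA_apply, actA_apply, map_mul, h2, actQ_add', ← actQ_mul', comm_cj,
      actQ_mul']
  · refine hTRL p k k' K F hT q D d ρ τ c _ h3 fun σ σ' h => ?_
    rw [actA_apply, cj_eq hT τ h]

/-- the representation on the classes -/
noncomputable def rep (hTRL : Q_TRL) (hT : IsTower k k' K F) (q D : k[X])
    (c₀ : (Sep F ≃ₐ[F] Sep F) → Fin d → ℚ_[p]) (h₀ : LocTrivial k' q D ρ c₀) :
    Representation ℚ_[p] (Sep F ≃ₐ[K] Sep F)
      (↥(Zc ρ q D c₀ h₀) ⧸ (Z0 ρ).comap (Zc ρ q D c₀ h₀).subtype) where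
  toFun τ := Submodule.mapQ _ _ ((actA ρ hT τ).restrict fun c hc => actA_Zc ρ hTRL hT q D c₀ h₀ τ hc)
    (by
      rintro ⟨c, hc⟩ h
      exact actA_Z0 ρ hT τ h)
  map_one' := by
    refine LinearMap.ext fun x => ?_
    obtain ⟨z, rfl⟩ := Submodule.Quotient.mk_surjective _ x
    rw [Submodule.mapQ_apply]
    congr 1
    exact Subtype.ext (actA_one ρ hT z.1)
  map_mul' τ₁ τ₂ := by
    refine LinearMap.ext fun x => ?_
    obtain ⟨z, rfl⟩ := Submodule.Quotient.mk_surjective _ x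
    rw [Module.End.mul_apply, Submodule.mapQ_apply, Submodule.mapQ_apply, Submodule.mapQ_apply]
    congr 1
    exact Subtype.ext (actA_mul ρ hT τ₁ τ₂ z.1)

theorem rep_mk (hTRL : Q_TRL) (hT : IsTower k k' K F) (q D : k[X])
    (c₀ : (Sep F ≃ₐ[F] Sep F) → Fin d → ℚ_[p]) (h₀ : LocTrivial k' q D ρ c₀)
    (τ : Sep F ≃ₐ[K] Sep F) (z : ↥(Zc ρ q D c₀ h₀)) :
    rep ρ hTRL hT q D c₀ h₀ τ (Submodule.Quotient.mk z) =
      Submodule.Quotient.mk ⟨actA ρ hT τ z.1, actA_Zc ρ hTRL hT q D c₀ h₀ τ z.2⟩ := rfl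

end act

theorem main (hORA : Q_ORA) (hTRL : Q_TRL) : Q_ORB := by
  intro p _ k k' K F _ _ _ _ _ _ _ _ _ _ hT q D d B ρ hρ hB c hcc hcm hcl hcob κ hκ hfix
  haveI := hT.sep
  haveI := hT.fracK
  haveI : IsSepClosure K (Sep F) := sepKΩ hT.map
  haveI : Algebra.IsSeparable K (Sep F) := IsSepClosure.separable
  haveI : IsGalois K (Sep F) := inferInstance
  haveI : Algebra.IsSeparable k k' := IsSepClosure.separable
  haveI : IsGalois k k' := inferInstance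
  obtain ⟨r, hrs, hr⟩ := Pool.Agent.Helper44.Thin.KMM.exists_r hT
  have hrc' : ∀ (τ : Sep F ≃ₐ[K] Sep F) (c : k'), τ (em k' F (Sep F) (C c)) =
      em k' F (Sep F) (C (r τ c)) := by
    intro τ c
    rw [hr, Polynomial.map_C]
    rfl
  have hrc : Continuous r := Pool.Agent.Helper44.Thin.KMM.r_cont hT hrc'
  -- the normal subgroup
  set κn : IntermediateField k k' := IntermediateField.normalClosure k κ k' with hκn
  haveI : FiniteDimensional k κ := hκ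
  haveI : FiniteDimensional k κn := inferInstance
  haveI : Normal k κn := inferInstance
  haveI : IsGalois k κn := ⟨⟩
  have hle : κ ≤ κn := IntermediateField.le_normalClosure κ
  haveI hkn : κn.fixingSubgroup.Normal := (InfiniteGalois.normal_iff_isGalois κn).2 inferInstance
  haveI hkf : κn.fixingSubgroup.FiniteIndex := ⟨by
    rw [← IntermediateField.finrank_eq_fixingSubgroup_index]
    exact Module.finrank_pos.ne'⟩
  set N : Subgroup (Sep F ≃ₐ[K] Sep F) := κn.fixingSubgroup.comap r with hN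
  haveI hNn : N.Normal := Subgroup.Normal.comap hkn r
  haveI hNf : N.FiniteIndex := ⟨by
    rw [hN, Subgroup.index_comap_of_surjective _ hrs]
    exact hkf.index_ne_zero⟩
  have hNopen : IsOpen (N : Set (Sep F ≃ₐ[K] Sep F)) :=
    (IntermediateField.fixingSubgroup_isOpen κn).preimage hrc
  have hmemN : ∀ τ, τ ∈ N ↔ ∀ e ∈ κn, r τ e = e := by
    intro τ
    rw [hN, Subgroup.mem_comap, IntermediateField.mem_fixingSubgroup_iff]
  set H := ↥(Zc ρ q D c hcl) ⧸ (Z0 ρ).comap (Zc ρ q D c hcl).subtype with hH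
  set v : H := Submodule.Quotient.mk ⟨c, hcc, hcm, hcl⟩ with hv
  have hv0 : v ≠ 0 := by
    intro h
    apply hcob
    rw [hv, Submodule.Quotient.mk_eq_zero] at h
    exact h
  obtain ⟨m, b, δ, hm, hb, hδ1, hδ⟩ := hORA p (Sep F ≃ₐ[K] Sep F) H (rep ρ hTRL hT q D c hcl) v
    hv0 N hNn hNf (by
      intro g hg
      rw [hv, rep_mk, Submodule.Quotient.eq]
      obtain ⟨y, hy⟩ := hfix g (fun e he => by
        have h1 := hrc' g e
        rw [(hmemN g).1 hg e (hle he)] at h1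
        exact h1)
      exact ⟨y, fun σ => hy σ (cj hT g σ) (cj_spec hT g σ)⟩)
  choose z hz using fun j => Submodule.Quotient.mk_surjective _ (b j)
  refine ⟨m, δ, fun j => (z j).1, ?_, ?_, ?_, ?_, ?_, fun j => (z j).2.2.2, ?_⟩
  · by_contra hmB
    push Not at hmB
    obtain ⟨x, hx0, hx⟩ := hB m hmB (fun j => (z j).1) (fun j => (z j).2.1)
      (fun j => (z j).2.2.1) (fun j => (z j).2.2.2)
    apply hx0
    have h1 : ∑ j, x j • b j = 0 := by
      have h2 : ∑ j, x j • b j = Submodule.Quotient.mk (∑ j, x j • z j) := by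
        have h3 : (Submodule.Quotient.mk (∑ j, x j • z j) : H) =
            Submodule.mkQ _ (∑ j, x j • z j) := rfl
        rw [h3, map_sum]
        refine Finset.sum_congr rfl fun j _ => ?_
        rw [map_smul, ← hz j]
        rfl
      rw [h2]
      have h4 : ∑ j, x j • z j = 0 := by
        apply Subtype.ext
        rw [Submodule.coe_sum, Submodule.coe_zero]
        funext σ
        rw [Finset.sum_apply]
        exact hx σ
      rw [h4]
      rfl
    funext j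
    exact Fintype.linearIndependent_iff.1 hb x h1 j
  · apply continuous_of_continuousAt_one
    rw [ContinuousAt, map_one]
    refine tendsto_const_nhds.congr' ?_
    filter_upwards [hNopen.mem_nhds N.one_mem] with τ hτ
    exact (hδ1 τ hτ).symm
  · have h1 : N ≤ δ.ker := fun g hg => hδ1 g hg
    haveI : δ.ker.FiniteIndex := Subgroup.finiteIndex_of_le h1
    haveI : Finite ((Sep F ≃ₐ[K] Sep F) ⧸ δ.ker) := inferInstance
    haveI : Finite δ.range := Finite.of_equiv _ (QuotientGroup.quotientKerEquivRange δ).toEquiv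
    have h2 : Set.range δ = (δ.range : Set (GL (Fin m) ℤ_[p])) := rfl
    rw [h2]
    exact Set.toFinite _
  · intro σ
    apply hδ1
    rw [hmemN]
    intro e _
    apply Pool.Agent.Helper55.RL.em_inj (k' := k') (F := F)
    show em k' F (Sep F) (C (r (σ.restrictScalars K) e)) = em k' F (Sep F) (C e)
    rw [← hrc']
    exact σ.commutes _
  · refine ⟨fun j => (z j).2.1, fun j => (z j).2.2.1, fun τ j => ?_⟩
    have h1 := hδ τ j
    have h2 : ∑ i, algebraMap ℤ_[p] ℚ_[p] ((δ τ).1 i j) • b i =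
        Submodule.Quotient.mk (∑ i, algebraMap ℤ_[p] ℚ_[p] ((δ τ).1 i j) • z i) := by
      have h3 : (Submodule.Quotient.mk (∑ i, algebraMap ℤ_[p] ℚ_[p] ((δ τ).1 i j) • z i) : H) =
          Submodule.mkQ _ (∑ i, algebraMap ℤ_[p] ℚ_[p] ((δ τ).1 i j) • z i) := rfl
      rw [h3, map_sum]
      refine Finset.sum_congr rfl fun i _ => ?_
      rw [map_smul, ← hz i]
      rfl
    rw [h2, ← hz j, rep_mk, Submodule.Quotient.eq] at h1
    obtain ⟨y, hy⟩ := h1
    refine ⟨y, fun σ σ' h => ?_⟩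
    have h4 := hy σ
    have h5 : (((⟨actA ρ hT τ (z j).1, actA_Zc ρ hTRL hT q D c hcl τ (z j).2⟩ : Zc ρ q D c hcl) -
        ∑ i, algebraMap ℤ_[p] ℚ_[p] ((δ τ).1 i j) • z i : Zc ρ q D c hcl) :
        (Sep F ≃ₐ[F] Sep F) → Fin d → ℚ_[p]) σ = actQ ρ τ ((z j).1 σ') -
        ∑ i, algebraMap ℤ_[p] ℚ_[p] ((δ τ).1 i j) • (z i).1 σ := by
      rw [Submodule.coe_sub, Pi.sub_apply, Submodule.coe_sum, Finset.sum_apply]
      change actQ ρ τ ((z j).1 (cj hT τ σ)) - _ = _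
      rw [cj_eq hT τ h]
      rfl
    rw [← h5]
    exact h4
  · refine ⟨⟨0, hm⟩, fun h => hb.ne_zero ⟨0, hm⟩ ?_⟩
    rw [← hz, Submodule.Quotient.mk_eq_zero]
    exact h

end Pool.Agent.Helper13.Thin.ORB
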